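import Mathlib

set_option autoImplicit false

namespace Pool.Agent.Results.MP_f888fa_lc.Finite

universe u v

/-- terms over `Σ = (0, 1, ⊥, +, -, ·, ÷)` -/
inductive Term
  | var : ℕ → Term
  | zero : Term
  | one : Term
  | bot : Term
  | neg : Term → Term
  | add : Term → Term → Term
  | mul : Term → Term → Term
  | div : Term → Term → Term

/-- a `Σ`-algebra structure on `A` -/
structure Alg (A : Type u) where
  zero : A
  one : A
  bot : A
  neg : A → A
  add : A → A → A
  mul : A → A → A
  div : A → A → A

def Alg.eval {A : Type u} (M : Alg A) (s : ℕ → A) : Term → A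
  | .var i => s i
  | .zero => M.zero
  | .one => M.one
  | .bot => M.bot
  | .neg x => M.neg (M.eval s x)
  | .add x y => M.add (M.eval s x) (M.eval s y)
  | .mul x y => M.mul (M.eval s x) (M.eval s y)
  | .div x y => M.div (M.eval s x) (M.eval s y)

/-- a conditional equation: a list of premises and a conclusion -/
abbrev Cond := List (Term × Term) × Term × Term

def Alg.Sat {A : Type u} (M : Alg A) (c : Cond) : Prop :=
  ∀ s : ℕ → A, (∀ e ∈ c.1, M.eval s e.1 = M.eval s e.2) → M.eval s c.2.1 = M.eval s c.2.2

open Classical in
/-- the common meadow of a field `F`; `none` is `⊥` -/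
noncomputable def meadow (F : Type v) [Field F] : Alg (Option F) where
  zero := some 0
  one := some 1
  bot := none
  neg x := x.map (-·)
  add x y := x.bind fun a => y.map (a + ·)
  mul x y := x.bind fun a => y.map (a * ·)
  div x y := x.bind fun a => y.bind fun b => if b = 0 then none else some (a * b⁻¹)

/-- the numeral `n + 1 = 1 + 1 + ⋯ + 1` -/
def succNum : ℕ → Term
  | 0 => .one
  | n + 1 => .add (succNum n) .one

def phi (p : ℕ) : Cond :=
  ([(.mul (.div .zero (succNum 1)) (.div .zero (succNum 2)),
    .mul (.div .zero (succNum 1)) (.div .zero (succNum (p - 1))))],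
    .div .zero (succNum 2), .div .zero (succNum (p - 1)))

open Term in
def E : List Cond :=
  [([], mul (var 0) one, var 0),
   ([], mul (var 0) (add (var 1) one), add (mul (var 0) (var 1)) (var 0)),
   ([], add (var 0) (add one one), add (add (var 0) one) one),
   ([], add zero zero, zero),
   ([(mul zero (var 0), zero), (mul zero (var 1), zero), (mul zero (var 2), zero),
     (mul (div zero (var 0)) (div zero (add (mul (var 0) (var 1)) one)),
      mul (div zero (var 0)) (div zero (add (mul (var 0) (var 2)) one)))],
     div zero (add (mul (var 0) (var 1)) one), div zero (add (mul (var 0) (var 2)) one))]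

theorem result : ∃ E : List Cond, (∀ c ∈ E, ∀ (F : Type v) [Field F], (meadow F).Sat c) ∧
    ∀ p : ℕ, p.Prime → 5 ≤ p → ∀ (A : Type u) (M : Alg A), (∀ c ∈ E, M.Sat c) → M.Sat (phi p) := by
  refine ⟨E, fun c hc F _ s => ?_, fun p hp hp5 A M h s hs => ?_⟩
  · simp only [E, List.mem_cons, List.not_mem_nil, or_false] at hc
    rcases hc with rfl | rfl | rfl | rfl | rfl <;> simp only [Alg.eval, meadow, List.forall_mem_cons] <;>
      cases s 0 <;> cases s 1 <;> cases s 2 <;> simp [mul_add, add_assoc]
    split_ifs <;> simp_all
  · simp only [E, List.forall_mem_cons, Alg.Sat, Alg.eval, List.not_mem_nil, false_imp_iff,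
      implies_true, forall_const, and_true] at h
    obtain ⟨h1, h2, h3, h4, h5⟩ := h
    have a1 := fun x => h1 fun _ => x
    have a2 := fun x y => h2 fun i => if i = 0 then x else y
    have a3 := fun x => h3 fun _ => x
    simp only [if_true, one_ne_zero, if_false] at a1 a2 a3
    have z : ∀ n, M.mul M.zero (M.eval s (succNum n)) = M.zero := fun n => by
      induction n with
      | zero => exact a1 _
      | succ n ih => simp only [succNum, Alg.eval, a2, ih, h4 s]
    have d : ∀ n, M.mul (M.add M.one M.one) (M.eval s (succNum n)) = M.eval s (succNum (2 * n + 1)) :=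
      fun n => by
      induction n with
      | zero => exact a1 _
      | succ n ih => simp only [succNum, Alg.eval, a2, ih, a3, mul_add]
    obtain ⟨k, rfl⟩ : ∃ k, p = 2 * k + 1 + 1 + 1 := by
      obtain ⟨k, rfl⟩ := hp.odd_of_ne_two (by omega)
      exact ⟨k - 1, by omega⟩
    have := h5 fun i => if i = 0 then M.add M.one M.one else
      M.eval s (succNum (if i = 1 then 0 else k))
    simp only [if_true, one_ne_zero, if_false, OfNat.ofNat_ne_zero, OfNat.ofNat_ne_one, d, z] at this
    exact this ⟨z 1, trivial, trivial, hs _ (List.mem_singleton_self _)⟩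

end Pool.Agent.Results.MP_f888fa_lc.Finite
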